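import Pool.Agent.H37.IS.UNI
import Pool.Agent.H55.IS.BA1
import Pool.Agent.H55.IS.BA2
import Pool.Agent.H64.IS.CMB
import Pool.Agent.H70.IS.SWI
import Pool.Agent.H76.IS.BA
import Pool.Agent.H76.IS.SLF
import Pool.Agent.H89.IS.DEC
import Pool.Agent.H89.IS.TRE

set_option autoImplicit false

namespace H37.IS

theorem srt : S_SRT := H64.IS.t_SRT BA1_proved

theorem snm : S_SNM := SNM_proved BA2_proved

theorem slf : S_SLF := SLF_proved BA1_proved snm

theorem sbd : S_SBD := SBD_proved BA2_proved BA5_proved

theorem swi : S_SWI := SWI_proved BA3_proved BA4_proved sbd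

theorem uni : S_UNI := UNI_proved srt slf swi H64.IS.t_CMB

theorem fin : S_FIN := FIN_proved uni DEC_proved

end H37.IS
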