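import Pool.Agent.H37.IS.Stm2

set_option autoImplicit false

namespace H37.IS

open N36365310

theorem HUN_core (h1 : S_HIN) (h2 : S_HDE) (h3 : S_HCM) :
    ∀ (ι : Type) [DecidableEq ι] (F : Finset ι) (N c : ℕ) (a s : ι → ℕ) (i0 : ι),
      Fam F N c a s i0 → ∀ p : ℕ, Hvy F N c a s p → UnimodalSeq (sumch F N a s) := by
  intro ι _ F N c a s i0 hF p hp
  exact h3 (sumch F N a s) N (fun k hk => h1 ι F N c a s i0 hF k p hp hk)
    (fun k hk => h2 ι F N c a s i0 hF k p hp hk)

theorem HFI_proved (h1 : S_HIN) (h2 : S_HDE) (h3 : S_HCM) (hFor : S_FOR) (hD : S_DE2) : S_HFI := by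
  classical
  intro V _ G C hG hn hC hdeg
  obtain ⟨F, a, s, hF, hseq, hexp⟩ := hD V G C hC
  rw [hseq]
  have hC' : C.card ≤ Fintype.card V := Finset.card_le_univ C
  set n := Fintype.card V with hnn
  set p := Nat.log 2 n + 1 with hp
  have hcardC : (Finset.univ \ C : Finset V).card = n - C.card := by
    rw [Finset.card_sdiff_of_subset (Finset.subset_univ C), Finset.card_univ]
  have hnb : ∀ v ∈ C, 9 * p + 1 ≤ ((Finset.univ \ C).filter (fun w => G.Adj v w)).card := by
    intro v hv
    have h := hdeg v hv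
    have he : {w : V | G.Adj v w ∧ w ∉ C}.ncard =
        ((Finset.univ \ C).filter (fun w => G.Adj v w)).card := by
      rw [← Set.ncard_coe_finset]
      congr 1
      ext w
      simp only [Set.mem_setOf_eq, Finset.coe_filter, Finset.mem_sdiff, Finset.mem_univ, true_and]
      exact and_comm
    rw [he] at h
    omega
  have hS : ∀ S : Finset V, S ⊆ C →
      9 * p * S.card ≤ ((Finset.univ \ C).filter (fun v => ∃ u ∈ S, G.Adj u v)).card := by
    intro S hSC
    exact hFor V G hG (9 * p) S (Finset.univ \ C) (fun v hv => hnb v (hSC hv))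
  -- `C` is nonempty
  have hc1 : 1 ≤ C.card := by
    have hnt : Nontrivial V := Fintype.one_lt_card_iff_nontrivial.1 (by omega)
    obtain ⟨x, y, hxy⟩ := exists_pair_ne V
    obtain ⟨w⟩ := hG.1.preconnected x y
    cases w with
    | nil => exact absurd rfl hxy
    | cons h _ =>
      rcases hC _ _ h with h' | h'
      · exact Finset.card_pos.2 ⟨_, h'⟩
      · exact Finset.card_pos.2 ⟨_, h'⟩
  obtain ⟨v0, hv0⟩ := Finset.card_pos.1 (show 0 < C.card by omega)
  have hn11 : 10 ≤ n := by
    have h := hnb v0 hv0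
    have h2 : ((Finset.univ \ C).filter (fun w => G.Adj v0 w)).card ≤ n := Finset.card_le_univ _
    omega
  have hlog : 3 ≤ Nat.log 2 n := Nat.le_log_of_pow_le (by norm_num) (by omega)
  have hlt : n < 2 ^ p := Nat.lt_pow_succ_log_self (by norm_num) n
  refine HUN_core h1 h2 h3 (Finset V) F (n - C.card) C.card a s ∅ hF p
    ⟨by omega, by omega, hc1, ?_, ?_⟩
  · have h := hS C (le_refl C)
    have h2 : ((Finset.univ \ C).filter (fun v => ∃ u ∈ C, G.Adj u v)).card ≤ n - C.card := by
      rw [← hcardC]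
      exact Finset.card_filter_le _ _
    exact h.trans h2
  · intro S hSF
    obtain ⟨e1, e2, e3⟩ := hexp S hSF
    rw [e1, e3]
    exact hS S e2

end H37.IS
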