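import Pool.Agent.H37.IS.All
import Pool.Agent.H37.IS.HUN
import Pool.Agent.H85.IS.HIN
import Pool.Agent.H89.IS.HDE
import Pool.Agent.H89.IS.DE2
import Pool.Agent.H33.IS.HCM
import Pool.Agent.H60.IS.HBD

set_option autoImplicit false

namespace H37.IS

theorem hbd : S_HBD := HBD_proved BA2_proved BA5_proved

theorem hin : S_HIN := HIN_proved slf hbd

theorem hde : S_HDE := HDE_proved srt hbd

theorem hfi : S_HFI := HFI_proved hin hde H33.IS.HCM_proved H33.IS.FOR_proved DE2_proved

end H37.IS
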