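import Pool.Agent.H37.IS.Stm3

/-! Crew IS, part DOH. -/

set_option autoImplicit false

namespace H37.IS

open N36365310

section
variable {H : Type} [Fintype H] [DecidableEq H] {J : SimpleGraph H} {d : H → ℕ} {N K k : ℕ}

theorem doh_mem (A : Finset H) :
    A ∈ Om J d N k ↔ J.IsIndepSet (A : Set H) ∧ k - A.card ≤ N - dS d A := by
  classical
  unfold Om
  rw [Finset.mem_filter]
  simp

omit [Fintype H] in
theorem doh_dS_insert {v : H} {A : Finset H} (hv : v ∉ A) : dS d (insert v A) = d v + dS d A := by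
  unfold dS
  exact Finset.sum_insert hv

theorem doh_dS_le (hW : Win J d N K k) (A : Finset H) : dS d A ≤ N := by
  rw [hW.hN]
  exact Finset.sum_le_sum_of_subset (Finset.subset_univ A)

theorem doh_card (hW : Win J d N K k) (A : Finset H) : 100 * A.card ≤ dS d A := by
  unfold dS
  have h1 : ∀ v ∈ A, 100 ≤ d v := fun v _ => hW.hK.trans (hW.hd v)
  have h2 := Finset.card_nsmul_le_sum A d 100 h1
  rw [smul_eq_mul] at h2
  linarith

theorem doh_k (hW : Win J d N K k) (A : Finset H) : A.card ≤ k ∧ 19 * N ≤ 40 * (k - A.card) := by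
  have h1 := doh_card hW A
  have h2 := doh_dS_le hW A
  have h3 := hW.hlo
  have h4 := hW.hN0
  constructor <;> omega

theorem doh_down (hW : Win J d N K k) (A : Finset H) (hA : A ∈ Om J d N k) (B : Finset H)
    (hB : B ⊆ A) : B ∈ Om J d N k := by
  rw [doh_mem] at hA ⊢
  refine ⟨hA.1.mono (by exact_mod_cast hB), ?_⟩
  have h1 : dS d B + dS d (A \ B) = dS d A := by
    unfold dS
    rw [add_comm]
    exact Finset.sum_sdiff hB
  have h2 := doh_card hW (A \ B)
  have h3 : (A \ B).card + B.card = A.card := Finset.card_sdiff_add_card_eq_card hB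
  have h4 := doh_dS_le hW A
  have h5 := (doh_k hW A).1
  have h6 := hA.2
  omega

theorem doh_wt (A : Finset H) (hA : A ∈ Om J d N k) : 0 < wt d N k A := by
  rw [doh_mem] at hA
  unfold wt
  exact_mod_cast Nat.choose_pos hA.2

/-- the ratio -/
noncomputable def Ra (d : H → ℕ) (N k : ℕ) (v : H) (A : Finset H) : ℝ :=
  ((N - dS d A - d v).choose (k - A.card - 1) : ℝ) / ((N - dS d A).choose (k - A.card) : ℝ)

theorem doh_pr (v : H) (A : Finset H) (hA : A ∈ Om J d N k)
    (hi : J.IsIndepSet ((insert v A : Finset H) : Set H)) :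
    pr J d N k v A = Ra d N k v A / (1 + Ra d N k v A) := by
  have hw := doh_wt A hA
  unfold wt at hw
  unfold pr Ra
  rw [if_pos hi]
  have : (0 : ℝ) ≤ ((N - dS d A - d v).choose (k - A.card - 1) : ℝ) := Nat.cast_nonneg _
  field_simp

theorem doh_pr0 (v : H) (A : Finset H)
    (hi : ¬ J.IsIndepSet ((insert v A : Finset H) : Set H)) : pr J d N k v A = 0 := by
  unfold pr
  rw [if_neg hi]

omit [Fintype H] [DecidableEq H] in
theorem Ra_nonneg (v : H) (A : Finset H) : 0 ≤ Ra d N k v A := by
  unfold Ra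
  positivity

theorem doh_pr01 (v : H) (A : Finset H) : 0 ≤ pr J d N k v A ∧ pr J d N k v A ≤ 1 := by
  unfold pr
  split_ifs
  · constructor
    · positivity
    · apply div_le_one_of_le₀
      · have : (0 : ℝ) ≤ ((N - dS d A).choose (k - A.card) : ℝ) := Nat.cast_nonneg _
        linarith
      · positivity
  · simp

theorem doh_Ra_le (h1 : S_NB1) (hW : Win J d N K k) (v : H) (A : Finset H) (hv : v ∉ A)
    (hA : A ∈ Om J d N k) : Ra d N k v A ≤ (3 / 5 : ℝ) ^ (d v - 1) := by
  have hA' := (doh_mem A).1 hA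
  have hM := doh_dS_le hW (insert v A)
  rw [doh_dS_insert hv] at hM
  have hd := hW.hK.trans (hW.hd v)
  have hk := doh_k hW A
  have hN0 := hW.hN0
  have h2 := h1 (N - dS d A) (k - A.card) (d v) (by omega) (by omega) hA'.2 (by omega)
  have hw := doh_wt A hA
  unfold wt at hw
  unfold Ra
  rw [div_le_iff₀ hw, div_pow, div_mul_eq_mul_div, le_div_iff₀ (by positivity)]
  exact_mod_cast h2

theorem doh_pr_le (h1 : S_NB1) (hW : Win J d N K k) (v : H) (A : Finset H) (hv : v ∉ A)
    (hA : A ∈ Om J d N k) : pr J d N k v A ≤ (3 / 5 : ℝ) ^ (d v - 1) := by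
  by_cases hi : J.IsIndepSet ((insert v A : Finset H) : Set H)
  · rw [doh_pr v A hA hi]
    refine le_trans ?_ (doh_Ra_le h1 hW v A hv hA)
    have h2 := Ra_nonneg (d := d) (N := N) (k := k) v A
    apply div_le_of_le_mul₀ (by linarith) h2
    nlinarith
  · rw [doh_pr0 v A hi]
    positivity

theorem lip_ratio (x y : ℝ) (hx : 0 ≤ x) (hy : 0 ≤ y) :
    |x / (1 + x) - y / (1 + y)| ≤ |x - y| := by
  have h1 : x / (1 + x) - y / (1 + y) = (x - y) / ((1 + x) * (1 + y)) := by
    field_simp
    ring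
  rw [h1, abs_div]
  apply div_le_self (abs_nonneg _)
  rw [abs_of_nonneg (by positivity)]
  nlinarith

theorem num1 (n : ℕ) : ((n : ℝ) + 100 + 1) * (87 / 100 : ℝ) ^ (n + 100) ≤ 1 / 100 := by
  induction n with
  | zero => norm_num
  | succ n ih =>
    have h1 : (87 / 100 : ℝ) ^ (n + 1 + 100) = (87 / 100 : ℝ) ^ (n + 100) * (87 / 100) := by
      rw [← pow_succ]
    rw [h1]
    push_cast
    have h2 : 0 < (87 / 100 : ℝ) ^ (n + 100) := by positivity
    have h3 : (0 : ℝ) ≤ n := Nat.cast_nonneg n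
    nlinarith

/-- `(d+1) (3/5)^(d-2) 2^(d/2)` is tiny -/
theorem num2 (D : ℕ) (hD : 100 ≤ D) :
    ((D : ℝ) + 1) * (3 / 5 : ℝ) ^ (D - 2) * 2 ^ (D / 2) ≤ 1 / 36 := by
  obtain ⟨n, rfl⟩ := Nat.exists_eq_add_of_le' hD
  have h1 := num1 n
  have h2 : (2 : ℝ) ^ ((n + 100) / 2) ≤ (29 / 20 : ℝ) ^ (n + 100) := by
    calc (2 : ℝ) ^ ((n + 100) / 2) ≤ ((29 / 20 : ℝ) ^ 2) ^ ((n + 100) / 2) := by
          apply pow_le_pow_left₀ (by norm_num); norm_num
      _ = (29 / 20 : ℝ) ^ (2 * ((n + 100) / 2)) := (pow_mul _ _ _).symm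
      _ ≤ (29 / 20 : ℝ) ^ (n + 100) := pow_le_pow_right₀ (by norm_num) (by omega)
  have h3 : (3 / 5 : ℝ) ^ (n + 100 - 2) = (3 / 5 : ℝ) ^ (n + 100) * (25 / 9) := by
    have : n + 100 = (n + 100 - 2) + 2 := by omega
    conv_rhs => rw [this, pow_add]
    norm_num
    ring
  have h4 : (87 / 100 : ℝ) ^ (n + 100) = (3 / 5 : ℝ) ^ (n + 100) * (29 / 20 : ℝ) ^ (n + 100) := by
    rw [← mul_pow]; norm_num
  rw [h3]
  push_cast
  rw [h4] at h1
  have h5 : 0 < (3 / 5 : ℝ) ^ (n + 100) := by positivity
  have h6 : (0 : ℝ) ≤ n := Nat.cast_nonneg n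
  calc ((n : ℝ) + 100 + 1) * ((3 / 5 : ℝ) ^ (n + 100) * (25 / 9)) * 2 ^ ((n + 100) / 2)
      ≤ ((n : ℝ) + 100 + 1) * ((3 / 5 : ℝ) ^ (n + 100) * (25 / 9)) * (29 / 20 : ℝ) ^ (n + 100) := by
        gcongr
    _ = (25 / 9) * (((n : ℝ) + 100 + 1) * ((3 / 5 : ℝ) ^ (n + 100) * (29 / 20 : ℝ) ^ (n + 100))) := by
        ring
    _ ≤ (25 / 9) * (1 / 100) := by gcongr
    _ = 1 / 36 := by norm_num

theorem doh_term (h1 : S_NB1) (h2 : S_NB2) (hW : Win J d N K k) (u v : H) [Decidable (J.Adj u v)]
    (huv : u ≠ v) (A : Finset H) (hu : u ∉ A) (hv : v ∉ A) (hA' : insert u A ∈ Om J d N k) (c : ℝ)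
    (hc : c = if J.Adj u v then 1 / (4 * 2 ^ (K / 2) : ℝ) else 0) :
    |pr J d N k v A - pr J d N k v (insert u A)| * ((d v : ℝ) + 1) ≤
      c + ((d u : ℝ) + 1) / (4 * N) * d v := by
  have hA : A ∈ Om J d N k := doh_down hW _ hA' A (Finset.subset_insert u A)
  have hN0 : (0 : ℝ) < N := by
    have := hW.hN0
    exact_mod_cast (by omega : 0 < N)
  have hD : 100 ≤ d v := hW.hK.trans (hW.hd v)
  have hnum := num2 (d v) hD
  have hrest : 0 ≤ ((d u : ℝ) + 1) / (4 * N) * d v := by positivity
  by_cases hadj : J.Adj u v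
  · rw [if_pos hadj] at hc
    have h3 : ¬ J.IsIndepSet ((insert v (insert u A) : Finset H) : Set H) := by
      intro hi
      have hvm : v ∈ ((insert v (insert u A) : Finset H) : Set H) := by simp
      have hum : u ∈ ((insert v (insert u A) : Finset H) : Set H) := by simp
      exact hi hum hvm huv hadj
    rw [doh_pr0 v (insert u A) h3, sub_zero, abs_of_nonneg (doh_pr01 v A).1]
    have h4 := doh_pr_le h1 hW v A hv hA
    have h5 : (3 / 5 : ℝ) ^ (d v - 1) ≤ (3 / 5 : ℝ) ^ (d v - 2) :=
      pow_le_pow_of_le_one (by norm_num) (by norm_num) (by omega)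
    have h6 : (2 : ℝ) ^ (K / 2) ≤ 2 ^ (d v / 2) :=
      pow_le_pow_right₀ (by norm_num) (Nat.div_le_div_right (hW.hd v))
    have h7 : pr J d N k v A * ((d v : ℝ) + 1) * (2 : ℝ) ^ (K / 2) ≤ 1 / 4 := by
      calc pr J d N k v A * ((d v : ℝ) + 1) * (2 : ℝ) ^ (K / 2)
          ≤ (3 / 5 : ℝ) ^ (d v - 2) * ((d v : ℝ) + 1) * 2 ^ (d v / 2) := by
            have := h4.trans h5
            gcongr
        _ = ((d v : ℝ) + 1) * (3 / 5 : ℝ) ^ (d v - 2) * 2 ^ (d v / 2) := by ring
        _ ≤ 1 / 36 := hnum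
        _ ≤ 1 / 4 := by norm_num
    have h8 : pr J d N k v A * ((d v : ℝ) + 1) ≤ 1 / (4 * 2 ^ (K / 2) : ℝ) := by
      rw [le_div_iff₀ (by positivity)]
      linarith
    rw [hc]
    linarith
  · rw [if_neg hadj] at hc
    rw [hc, zero_add]
    by_cases hi : J.IsIndepSet ((insert v A : Finset H) : Set H)
    · have hiu := ((doh_mem _).1 hA').1
      have hi' : J.IsIndepSet ((insert v (insert u A) : Finset H) : Set H) := by
        intro x hx y hy hxy
        have hx1 : x = v ∨ x = u ∨ x ∈ A := by simpa using hx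
        have hy1 : y = v ∨ y = u ∨ y ∈ A := by simpa using hy
        have mv : v ∈ ((insert v A : Finset H) : Set H) := by simp
        have mu' : u ∈ ((insert u A : Finset H) : Set H) := by simp
        have ma : ∀ z, z ∈ A → z ∈ ((insert v A : Finset H) : Set H) := fun z hz => by simp [hz]
        have mb : ∀ z, z ∈ A → z ∈ ((insert u A : Finset H) : Set H) := fun z hz => by simp [hz]
        rcases hx1 with rfl | rfl | hx1 <;> rcases hy1 with rfl | rfl | hy1
        · exact absurd rfl hxy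
        · exact fun h => hadj h.symm
        · exact hi mv (ma y hy1) hxy
        · exact hadj
        · exact absurd rfl hxy
        · exact hiu mu' (mb y hy1) hxy
        · exact hi (ma x hx1) mv hxy
        · exact hiu (mb x hx1) mu' hxy
        · exact hiu (mb x hx1) (mb y hy1) hxy
      rw [doh_pr v A hA hi, doh_pr v (insert u A) hA' hi']
      have h3 := lip_ratio (Ra d N k v A) (Ra d N k v (insert u A)) (Ra_nonneg v A)
        (Ra_nonneg v (insert u A))
      have hm1 := ((doh_mem A).1 hA).2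
      have hm2 := ((doh_mem _).1 hA').2
      have hk := doh_k hW A
      have hN := hW.hN0
      have hM := doh_dS_le hW (insert v (insert u A))
      have hv' : v ∉ insert u A := by
        simp [hv, Ne.symm huv]
      rw [doh_dS_insert hv', doh_dS_insert hu] at hM
      have hDu : 100 ≤ d u := hW.hK.trans (hW.hd u)
      rw [doh_dS_insert hu, Finset.card_insert_of_notMem hu] at hm2
      have h4 := h2 N (N - dS d A) (k - A.card) (d v) (d u) (by omega) (by omega) (by omega)
        (by omega) (by omega) (by omega) (by omega) (by omega)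
      have h5 : |Ra d N k v A - Ra d N k v (insert u A)| ≤
          10 * d v * (d u + 1) * (3 / 5 : ℝ) ^ (d v - 2) / N := by
        rw [abs_sub_comm]
        refine le_trans (le_of_eq ?_) h4
        unfold Ra
        rw [doh_dS_insert hu, Finset.card_insert_of_notMem hu]
        have e1 : N - (d u + dS d A) - d v = N - dS d A - d u - d v := by omega
        have e2 : k - (A.card + 1) - 1 = k - A.card - 2 := by omega
        have e3 : N - (d u + dS d A) = N - dS d A - d u := by omega
        have e4 : k - (A.card + 1) = k - A.card - 1 := by omega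
        rw [e1, e2, e3, e4]
      have h6 : ((d v : ℝ) + 1) * (3 / 5 : ℝ) ^ (d v - 2) ≤ 1 / 40 := by
        have h7 : (2 : ℝ) ≤ 2 ^ (d v / 2) := by
          calc (2 : ℝ) = 2 ^ 1 := by norm_num
            _ ≤ 2 ^ (d v / 2) := pow_le_pow_right₀ (by norm_num) (by omega)
        have h8 : 0 ≤ ((d v : ℝ) + 1) * (3 / 5 : ℝ) ^ (d v - 2) := by positivity
        nlinarith
      calc |Ra d N k v A / (1 + Ra d N k v A) -
            Ra d N k v (insert u A) / (1 + Ra d N k v (insert u A))| * ((d v : ℝ) + 1)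
          ≤ (10 * d v * (d u + 1) * (3 / 5 : ℝ) ^ (d v - 2) / N) * ((d v : ℝ) + 1) :=
            mul_le_mul_of_nonneg_right (h3.trans h5) (by positivity)
        _ = (10 * d v * (d u + 1) / N) * (((d v : ℝ) + 1) * (3 / 5 : ℝ) ^ (d v - 2)) := by ring
        _ ≤ (10 * d v * (d u + 1) / N) * (1 / 40) := by gcongr
        _ = ((d u : ℝ) + 1) / (4 * N) * d v := by field_simp; ring
    · have hi' : ¬ J.IsIndepSet ((insert v (insert u A) : Finset H) : Set H) := by
        intro h
        apply hi
        apply h.mono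
        intro x hx
        have hx1 : x = v ∨ x ∈ A := by simpa using hx
        rcases hx1 with rfl | hx1 <;> simp [*]
      rw [doh_pr0 v A hi, doh_pr0 v _ hi', sub_zero, abs_zero, zero_mul]
      exact hrest

end

theorem DOH_proved (h1 : S_NB1) (h2 : S_NB2) : S_DOH := by
  classical
  intro H _ _ _ J d N K k hW
  have hN0 : (0 : ℝ) < N := by
    have := hW.hN0
    exact_mod_cast (by omega : 0 < N)
  refine ⟨⟨?_, ?_, ?_, ?_, ?_, ?_, ?_, ?_⟩, ?_⟩
  · intro A hA B hB
    exact doh_down hW A hA B hB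
  · rw [doh_mem]
    refine ⟨by simp, ?_⟩
    have := hW.hhi
    have := hW.hN0
    simp only [Finset.card_empty, dS, Finset.sum_empty]
    omega
  · intro A hA
    exact doh_wt A hA
  · intro v
    positivity
  · intro v A
    exact doh_pr01 v A
  · intro v A hv hA hvA
    by_cases hi : J.IsIndepSet ((insert v A : Finset H) : Set H)
    · rw [doh_mem] at hvA
      have h3 : ¬ (k - (insert v A).card ≤ N - dS d (insert v A)) := fun h => hvA ⟨hi, h⟩
      rw [doh_dS_insert hv, Finset.card_insert_of_notMem hv] at h3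
      unfold pr
      rw [if_pos hi]
      have h4 : (N - dS d A - d v).choose (k - A.card - 1) = 0 := by
        apply Nat.choose_eq_zero_of_lt
        omega
      rw [h4]
      simp
    · exact doh_pr0 v A hi
  · intro v A hv hvA
    have hA := doh_down hW _ hvA A (Finset.subset_insert v A)
    have hw := doh_wt A hA
    have hi := ((doh_mem _).1 hvA).1
    have h3 : wt d N k (insert v A) = ((N - dS d A - d v).choose (k - A.card - 1) : ℝ) := by
      unfold wt
      rw [doh_dS_insert hv, Finset.card_insert_of_notMem hv]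
      congr 2
      omega
    rw [h3]
    unfold pr
    rw [if_pos hi]
    unfold wt at hw ⊢
    have h4 : (0 : ℝ) ≤ ((N - dS d A - d v).choose (k - A.card - 1) : ℝ) := Nat.cast_nonneg _
    have h5 : ((N - dS d A).choose (k - A.card) : ℝ) +
        ((N - dS d A - d v).choose (k - A.card - 1) : ℝ) ≠ 0 := by positivity
    field_simp
    ring
  · intro u S hu hS
    have h3 : ∀ v ∈ Finset.univ.erase u,
        |pr J d N k v (S.erase v) - pr J d N k v ((insert u S).erase v)| * ((d v : ℝ) + 1) ≤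
          (if J.Adj u v then 1 / (4 * 2 ^ (K / 2) : ℝ) else 0) +
            ((d u : ℝ) + 1) / (4 * N) * d v := by
      intro v hv
      have huv : u ≠ v := fun h => (Finset.ne_of_mem_erase hv) h.symm
      rw [Finset.erase_insert_of_ne huv]
      have hsub : insert u (S.erase v) ⊆ insert u S := by
        intro x hx
        rw [Finset.mem_insert] at hx ⊢
        rcases hx with hx | hx
        · exact Or.inl hx
        · exact Or.inr (Finset.mem_of_mem_erase hx)
      exact doh_term h1 h2 hW u v huv (S.erase v) (fun h => hu (Finset.mem_of_mem_erase h))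
        (Finset.notMem_erase v S) (doh_down hW _ hS _ hsub) _ rfl
    refine (Finset.sum_le_sum h3).trans ?_
    refine (Finset.sum_le_sum_of_subset_of_nonneg (Finset.subset_univ _) ?_).trans ?_
    · intro v _ _
      have : 0 ≤ (if J.Adj u v then 1 / (4 * 2 ^ (K / 2) : ℝ) else 0) := by
        split_ifs <;> positivity
      positivity
    · rw [Finset.sum_add_distrib, ← Finset.mul_sum, ← Finset.sum_filter, Finset.sum_const,
        nsmul_eq_mul]
      have h4 : ((Finset.univ.filter (fun v => J.Adj u v)).card) = {v | J.Adj u v}.ncard := by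
        rw [← Set.ncard_coe_finset]
        congr 1
        ext v
        simp
      have h5 : ((Finset.univ.filter (fun v => J.Adj u v)).card : ℝ) ≤ 2 ^ (K / 2) * d u := by
        rw [h4]
        exact_mod_cast hW.hdeg u
      have h6 : ((Finset.univ.filter (fun v => J.Adj u v)).card : ℝ) * (1 / (4 * 2 ^ (K / 2))) ≤
          (d u : ℝ) / 4 := by
        calc ((Finset.univ.filter (fun v => J.Adj u v)).card : ℝ) * (1 / (4 * 2 ^ (K / 2)))
            ≤ (2 ^ (K / 2) * d u) * (1 / (4 * 2 ^ (K / 2))) := by gcongr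
          _ = (d u : ℝ) / 4 := by field_simp
      have h7 : ∑ v, (d v : ℝ) = N := by
        rw [hW.hN]; push_cast; rfl
      have h8 : ((d u : ℝ) + 1) / (4 * N) * ∑ v, (d v : ℝ) = ((d u : ℝ) + 1) / 4 := by
        rw [h7]; field_simp
      rw [h8]
      have h9 : (0 : ℝ) ≤ d u := Nat.cast_nonneg _
      linarith
  · intro v A hv hvA
    exact doh_pr_le h1 hW v A hv (doh_down hW _ hvA A (Finset.subset_insert v A))

end H37.IS
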