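import Pool.Agent.H37.IS.FI3
import Pool.Agent.H60.IS.DBA
import Pool.Agent.H31.IS.DBB
import Pool.Agent.H55.IS.DBC
import Pool.Agent.H10.IS.NB1
import Pool.Agent.H87.IS.NB2
import Pool.Agent.H37.IS.DOH
import Pool.Agent.H85.IS.RHL
import Pool.Agent.H12.IS.SUM
import Pool.Agent.H9.IS.RLO
import Pool.Agent.H85.IS.STP
import Pool.Agent.H42.IS.GRA

set_option autoImplicit false

namespace H37.IS

open N36365310

theorem stp : S_STP :=
  STP_proved (DBC_proved DBA_proved DBB_proved) (DOH_proved NB1_proved Pool.Agent.H87.IS.t_NB2)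
    RHL_proved SUM_proved (RLO_proved NB1_proved)

theorem fi3 : ∀ (V : Type) [Fintype V] (G : SimpleGraph V) (K : ℕ),
    G.IsTree → 3 ≤ Fintype.card V → 100 ≤ K →
    (∀ v, 2 ≤ (G.neighborSet v).ncard →
      K ≤ {w | G.Adj v w ∧ (G.neighborSet w).ncard = 1}.ncard ∧
      {w | G.Adj v w ∧ 2 ≤ (G.neighborSet w).ncard}.ncard ≤
        2 ^ (K / 2) * {w | G.Adj v w ∧ (G.neighborSet w).ncard = 1}.ncard) →
    UnimodalSeq (indepSeq G) :=
  FI3_tree stp GRA_proved

end H37.IS
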