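import Pool.Agent.H37.IS.Stm3

set_option autoImplicit false

namespace H37.IS

open N36365310

theorem CM3_proved : S_CM3 := by
  classical
  intro f L R hL hW hR
  -- there is an index `k ≥ L` with `f (k+1) ≤ f k`
  have hex : ∃ k, L ≤ k ∧ f (k + 1) ≤ f k := ⟨max L R, le_max_left _ _, hR _ (le_max_right _ _)⟩
  set m := Nat.find hex with hm
  obtain ⟨hm1, hm2⟩ := Nat.find_spec hex
  refine ⟨m, ?_, ?_⟩
  · intro i hi
    by_cases hiL : i < L
    · exact hL i hiL
    · by_contra hcon
      have : L ≤ i ∧ f (i + 1) ≤ f i := ⟨by omega, by omega⟩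
      exact absurd (Nat.find_min' hex this) (by omega)
  · intro i hi
    induction i, hi using Nat.le_induction with
    | base => exact hm2
    | succ i hmi ih =>
      by_cases hiR : R ≤ i + 1
      · exact hR _ hiR
      · exact hW i (by omega) (by omega) ih

theorem FMH_proved : S_FMH := by
  intro H _ _ J d F hF
  constructor
  · intro A _
    exact Finset.sum_le_sum_of_subset (Finset.subset_univ A)
  · intro A _
    exact Finset.card_le_univ A
  · rw [hF]
    simp [SimpleGraph.IsIndepSet]
  · simp [dS]
  · simp
  · intro A _ h0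
    exact Finset.card_eq_zero.1 h0
  · intro j
    rw [← Finset.card_univ, ← Finset.card_powersetCard]
    apply Finset.card_le_card
    intro A hA
    rw [Finset.mem_filter] at hA
    rw [Finset.mem_powersetCard]
    exact ⟨Finset.subset_univ _, hA.2⟩

end H37.IS
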