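import Pool.Agent.H37.IS.Stm3
import Pool.Agent.H37.IS.All2
import Pool.Agent.H37.IS.CM3

set_option autoImplicit false

namespace H37.IS

open N36365310

theorem FI3_log (N : ℕ) (hN : 2000 ≤ N) : 150 * (Nat.log 2 N + 1) ≤ N := by
  set l := Nat.log 2 N with hl
  have h1 : 2 ^ l ≤ N := Nat.pow_log_le_self 2 (by omega)
  by_cases h : l ≤ 10
  · omega
  · have h2 : ∀ m : ℕ, 11 ≤ m → 150 * (m + 1) ≤ 2 ^ m := by
      intro m hm
      induction m, hm using Nat.le_induction with
      | base => norm_num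
      | succ m hm ih => rw [pow_succ]; omega
    exact (h2 l (by omega)).trans h1

/-- The abstract unimodality. -/
theorem FI3_core (hS : S_STP) (H : Type) [Fintype H] [DecidableEq H] [Nonempty H]
    (J : SimpleGraph H) (d : H → ℕ) (N K : ℕ) (hN : N = ∑ v, d v) (hK : 100 ≤ K)
    (hd : ∀ v, K ≤ d v) (hdeg : ∀ v, {u | J.Adj v u}.ncard ≤ 2 ^ (K / 2) * d v) (hN0 : 2000 ≤ N) :
    UnimodalSeq (FF J d N) := by
  classical
  set n := Fintype.card H with hn
  have hKn : 100 * n ≤ N := by
    rw [hN]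
    have : ∑ v : H, K ≤ ∑ v, d v := Finset.sum_le_sum (fun v _ => hd v)
    rw [Finset.sum_const, Finset.card_univ, smul_eq_mul] at this
    have h2 : n * 100 ≤ n * K := Nat.mul_le_mul_left _ hK
    rw [← hn] at this
    omega
  have hl := FI3_log N hN0
  set l := Nat.log 2 N with hlN
  have hlt : N < 2 ^ (l + 1) := Nat.lt_pow_succ_log_self (by norm_num) N
  have hl3 : 3 ≤ l := Nat.le_log_of_pow_le (by norm_num) (by omega)
  set F : Finset (Finset H) :=
    (Finset.univ.filter (fun A : Finset H => J.IsIndepSet (A : Set H))) with hF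
  have hFam : Fam F N n (dS d) Finset.card ∅ := by
    rw [hN]
    exact FMH_proved H J d F (fun A => by rw [hF, Finset.mem_filter]; simp)
  have hFF : ∀ k, FF J d N k = sumch F N (dS d) Finset.card k := by
    intro k
    unfold FF
    congr 1
  refine CM3_proved (FF J d N) ((N + 2 - (n + 3 * (l + 1))) / 2 + 1) ((N + 2 * n) / 2) ?_ ?_ ?_
  · intro k hk
    rw [hFF, hFF]
    refine slf (Finset H) F N n (dS d) Finset.card ∅ hFam k (l + 1) (by omega) hlt ?_
    omega
  · intro k hk1 hk2 hk3
    refine hS H J d N K k ⟨hN, hK, hd, hdeg, hN0, ?_, ?_⟩ hk3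
    · omega
    · omega
  · intro k hk
    rw [hFF, hFF]
    refine srt (Finset H) F N n (dS d) Finset.card ∅ hFam k ?_
    omega

/-- The theorem for trees. -/
theorem FI3_tree (hS : S_STP) (hGr : S_GRA) : ∀ (V : Type) [Fintype V] (G : SimpleGraph V) (K : ℕ),
    G.IsTree → 3 ≤ Fintype.card V → 100 ≤ K →
    (∀ v, 2 ≤ (G.neighborSet v).ncard →
      K ≤ {w | G.Adj v w ∧ (G.neighborSet w).ncard = 1}.ncard ∧
      {w | G.Adj v w ∧ 2 ≤ (G.neighborSet w).ncard}.ncard ≤
        2 ^ (K / 2) * {w | G.Adj v w ∧ (G.neighborSet w).ncard = 1}.ncard) →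
    UnimodalSeq (indepSeq G) := by
  classical
  intro V _ G K hG hn hK hv
  have hdeg : ∀ w : V, (G.neighborSet w).ncard = G.degree w := by
    intro w
    rw [← SimpleGraph.card_neighborFinset_eq_degree, ← Set.ncard_coe_finset,
      SimpleGraph.coe_neighborFinset]
  set C : Finset V := Finset.univ.filter (fun v : V => 2 ≤ (G.neighborSet v).ncard) with hCdef
  have hCm : ∀ v, v ∈ C ↔ 2 ≤ (G.neighborSet v).ncard := by
    intro v
    rw [hCdef, Finset.mem_filter]
    simp
  have hC : ∀ u v, G.Adj u v → u ∈ C ∨ v ∈ C := by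
    intro u v huv
    rw [hCm, hCm, hdeg, hdeg]
    exact TRE_proved V G hG hn u v huv
  have hpos : ∀ w : V, 1 ≤ (G.neighborSet w).ncard := by
    intro w
    have hnt : Nontrivial V := Fintype.one_lt_card_iff_nontrivial.1 (by omega)
    rw [hdeg]
    exact hG.1.preconnected.degree_pos_of_nontrivial w
  have huniq : ∀ w, w ∉ C → ∃! v, G.Adj w v := by
    intro w hw
    rw [hCm] at hw
    have h1 := hpos w
    have h2 : (G.neighborSet w).ncard = 1 := by omega
    obtain ⟨a, ha⟩ := Set.ncard_eq_one.1 h2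
    refine ⟨a, ?_, ?_⟩
    · have : a ∈ G.neighborSet w := by rw [ha]; exact Set.mem_singleton a
      exact this
    · intro b hb
      have : b ∈ G.neighborSet w := hb
      rw [ha] at this
      exact this
  have hleaf : ∀ v : V, {w : V | G.Adj v w ∧ w ∉ C} = {w | G.Adj v w ∧ (G.neighborSet w).ncard = 1} := by
    intro v
    ext w
    constructor
    · rintro ⟨h1, h2⟩
      rw [hCm] at h2
      have := hpos w
      exact ⟨h1, by omega⟩
    · rintro ⟨h1, h2⟩
      refine ⟨h1, ?_⟩
      rw [hCm]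
      omega
  have hlow : ∀ v ∈ C, K ≤ {w : V | G.Adj v w ∧ w ∉ C}.ncard := by
    intro v hvC
    rw [hleaf]
    exact (hv v ((hCm v).1 hvC)).1
  by_cases hsmall : Fintype.card V < 2 ^ 11
  · refine hfi V G C hG (by omega) hC ?_
    intro v hvC
    have h1 := hlow v hvC
    have h2 : Nat.log 2 (Fintype.card V) < 11 := Nat.log_lt_of_lt_pow (by omega) hsmall
    omega
  · obtain ⟨hsum, hseq⟩ := hGr V G C hC huniq
    have hne : Nonempty {v // v ∈ C} := by
      have hnt : Nontrivial V := Fintype.one_lt_card_iff_nontrivial.1 (by omega)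
      obtain ⟨x, y, hxy⟩ := exists_pair_ne V
      obtain ⟨w⟩ := hG.1.preconnected x y
      cases w with
      | nil => exact absurd rfl hxy
      | cons h _ =>
        rcases hC _ _ h with h' | h'
        · exact ⟨⟨_, h'⟩⟩
        · exact ⟨⟨_, h'⟩⟩
    have hCn : C.card ≤ Fintype.card V := Finset.card_le_univ C
    have hK1 : 100 * C.card ≤ Fintype.card V - C.card := by
      rw [← hsum]
      have h1 : ∑ v : {v // v ∈ C}, 100 ≤
          ∑ v : {v // v ∈ C}, {w : V | G.Adj v w ∧ w ∉ C}.ncard :=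
        Finset.sum_le_sum (fun v _ => hK.trans (hlow v.1 v.2))
      rw [Finset.sum_const, Finset.card_univ, smul_eq_mul, Fintype.card_coe] at h1
      omega
    have hfun : indepSeq G = FF (SimpleGraph.comap (fun v : {v // v ∈ C} => (v : V)) G)
        (fun v => {w : V | G.Adj v w ∧ w ∉ C}.ncard) (Fintype.card V - C.card) := by
      funext k
      exact hseq k
    rw [hfun]
    refine FI3_core hS {v // v ∈ C} _ _ _ K hsum.symm hK (fun v => hlow v.1 v.2) ?_ (by omega)
    intro v
    have hvv := (hv v.1 ((hCm v.1).1 v.2)).2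
    rw [← hleaf] at hvv
    refine le_trans ?_ hvv
    have himg : ((fun u : {v // v ∈ C} => (u : V)) ''
        {u | (SimpleGraph.comap (fun v : {v // v ∈ C} => (v : V)) G).Adj v u}).ncard =
        {u | (SimpleGraph.comap (fun v : {v // v ∈ C} => (v : V)) G).Adj v u}.ncard :=
      Set.ncard_image_of_injective _ Subtype.val_injective
    rw [← himg]
    apply Set.ncard_le_ncard ?_ (Set.toFinite _)
    rintro w ⟨u, hu, rfl⟩
    exact ⟨hu, (hCm u.1).1 u.2⟩

end H37.IS
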