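import Mathlib
import Pool.Prelude.Def_F_f5f3026a

/-! CREW IS (helper37): MP_24a1b5_co. Graphs (in particular trees) with a small vertex cover have
unimodal independence sequences.  If `C` is a vertex cover with `c` vertices, `N = n - c`, then
`i_k = ∑_{S ⊆ C independent} choose (N - a_S) (k - |S|)`, `a_S` = number of neighbours of `S`
outside `C`.  Plan: the sum increases for `2k + c + T ≤ N + 2` (SLF), is concave in the window
(SWI), decreases for `2k + 1 ≥ N + 2c` (SRT). -/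

set_option autoImplicit false

namespace H37.IS

open N36365310

/-- shifted binomial coefficient: number of ways to choose `k - s` elements out of `M` (0 if `k < s`) -/
def ch (M k s : ℕ) : ℕ := if s ≤ k then M.choose (k - s) else 0

/-- the abstract sum: a finite family `F` of pairs (removed `a i`, shift `s i`) -/
def sumch {ι : Type} (F : Finset ι) (N : ℕ) (a s : ι → ℕ) (k : ℕ) : ℕ :=
  ∑ i ∈ F, ch (N - a i) k (s i)

/-- admissible family: `a i ≤ N`, `s i ≤ c`, exactly one index `i0` with `s = 0`, it has `a = 0`,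
and at most `choose c j` indices have shift `j`. -/
structure Fam {ι : Type} (F : Finset ι) (N c : ℕ) (a s : ι → ℕ) (i0 : ι) : Prop where
  ha : ∀ i ∈ F, a i ≤ N
  hs : ∀ i ∈ F, s i ≤ c
  h0 : i0 ∈ F
  ha0 : a i0 = 0
  hs0 : s i0 = 0
  huniq : ∀ i ∈ F, s i = 0 → i = i0
  hcount : ∀ j : ℕ, (F.filter (fun i => s i = j)).card ≤ c.choose j

/-! ## Elementary binomial inequalities -/

/-- BA1. `choose M j ≤ choose M (j+1)` if `2j+1 ≤ M`; `choose M (j+1) ≤ choose M j` if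
`M ≤ 2j+1`.  Proof: `(j+1) * choose M (j+1) = (M-j) * choose M j` (`Nat.choose_succ_right_eq`). -/
def S_BA1 : Prop :=
  (∀ M j : ℕ, 2 * j + 1 ≤ M → M.choose j ≤ M.choose (j + 1)) ∧
  (∀ M j : ℕ, M ≤ 2 * j + 1 → M.choose (j + 1) ≤ M.choose j)

/-- BA2. Removing `t` elements: if `t ≤ N` and `N ≤ 4j`, then
`4^t * choose (N-t) j ≤ 3^t * choose N j`.
Proof: induction on `t`; one step is `4 * choose (N'-1) j ≤ 3 * choose N' j` for `1 ≤ N' ≤ 4j`:
`N' * choose (N'-1) j = (N'-j) * choose N' j` (`Nat.choose_mul_succ_eq`: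
`n.choose k * (n+1) = (n+1).choose k * (n+1-k)`) and `4 (N'-j) ≤ 3 N'`; if `j > N'` trivial. -/
def S_BA2 : Prop :=
  ∀ N t j : ℕ, t ≤ N → N ≤ 4 * j → 4 ^ t * (N - t).choose j ≤ 3 ^ t * N.choose j

/-- BA3. Concavity: if `j ≥ 1` and `(M - 2j)^2 ≤ M + 2` (in ℤ) then
`choose M (j+1) + choose M (j-1) ≤ 2 * choose M j`.
Proof: put `j = i+1`.  If `j ≤ M`: with `x = choose M j`, `(j+1) choose M (j+1) = (M-j) x`,
`(M-j+1) choose M (j-1) = j x`; so `(j+1)(M-j+1)[2 x - ...] = x [2(j+1)(M-j+1) - (M-j)(M-j+1) -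
j(j+1)] = x [M + 2 - (M-2j)^2] ≥ 0`.  (`j > M`: `(2j-M)^2 ≤ M+2` forces `j = M+1`, `M+2 ≤ ...`: then
`(M+2)^2 ≤ M+2` is false.) -/
def S_BA3 : Prop :=
  ∀ M j : ℕ, ((M : ℤ) - 2 * j) ^ 2 ≤ (M : ℤ) + 2 →
    M.choose (j + 1) + (if 1 ≤ j then M.choose (j - 1) else 0) ≤ 2 * M.choose j

/-- BA4. Strong concavity of the main term: if `1 ≤ j ≤ N` and `2 (N - 2j)^2 ≤ N` then
`choose N j + 2 (N+1) (choose N (j+1) + choose N (j-1)) ≤ 2 (N+1) * 2 * choose N j`.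
Proof: as in BA3, with `x = choose N j` and `P = (j+1)(N-j+1)`:
`P (2x - choose N (j+1) - choose N (j-1)) = x (N + 2 - (N-2j)^2) ≥ x (N+2)/2`, and
`P ≤ (N+2)^2/4`, so `2x - ... ≥ 2x/(N+2) ≥ x/(2(N+1))`. -/
def S_BA4 : Prop :=
  ∀ N j : ℕ, 1 ≤ j → j ≤ N → 2 * ((N : ℤ) - 2 * j) ^ 2 ≤ (N : ℤ) →
    N.choose j + 2 * (N + 1) * (N.choose (j + 1) + N.choose (j - 1)) ≤
      2 * (N + 1) * (2 * N.choose j)

/-- BA5. Neighbouring binomials near the middle: if `3 k ≤ 2 N + 2` and `j ≤ k ` then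
`choose N j ≤ 2^(k-j) * choose N k`; and if `N ≤ 3 k + 2` then `choose N (k+1) ≤ 2 * choose N k`.
Proof: one step `choose N (j-1) ≤ 2 choose N j` for `3 j ≤ 2N+2`, from
`j choose N j = (N-j+1) choose N (j-1)`, `j ≤ 2 (N-j+1)`. -/
def S_BA5 : Prop :=
  (∀ N k j : ℕ, 3 * k ≤ 2 * N + 2 → j ≤ k → N.choose j ≤ 2 ^ (k - j) * N.choose k) ∧
  (∀ N k : ℕ, N ≤ 3 * k + 2 → N.choose (k + 1) ≤ 2 * N.choose k)

/-! ## The three regions -/

/-- SRT (uses BA1). Right region: all terms decrease.  For `i ∈ F`: if `s i ≤ k`,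
`choose (N-a) (k+1-s) ≤ choose (N-a) (k-s)` because `N - a ≤ N ≤ 2(k-s)+1`. If `s i > k`: then
`c > k` and `N + 2c ≤ 2k+1` is impossible. -/
def S_SRT : Prop :=
  ∀ (ι : Type) (F : Finset ι) (N c : ℕ) (a s : ι → ℕ) (i0 : ι), Fam F N c a s i0 →
    ∀ k : ℕ, N + 2 * c ≤ 2 * k + 1 → sumch F N a s (k + 1) ≤ sumch F N a s k

/-- SNM. The numerical inequality of the left region: `c + T ≥ 4`, `N < 2^p`, `T = 3p`.
`2k + c + T ≤ N + 2` implies `choose N k + choose (c+2k-2) k ≤ choose N (k+1)` for `k ≥ 1`.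
Proof: `(k+1) choose N (k+1) = (N-k) choose N k`, so the claim is
`(k+1) choose (c+2k-2) k ≤ (N-2k-1) choose N k`.  If `3k+2 ≤ N`: `k+1 ≤ N-2k-1` and
`choose (c+2k-2) k ≤ choose N k` (monotone).  Otherwise `N ≤ 3k+1 ≤ 4k`, `N-2k-1 ≥ 1`, and BA2 with
`t = T`, `choose (c+2k-2) k ≤ choose (N-T) k ≤ (3/4)^T choose N k`, `(4/3)^(3p) = (64/27)^p ≥ 2^p ≥
N+1 ≥ k+1` (`27^p * 2^p ≤ 64^p`). -/
def S_SNM : Prop :=
  ∀ N c k p : ℕ, 2 ≤ p → N < 2 ^ p → 1 ≤ k → 2 * k + c + 3 * p ≤ N + 2 →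
    N.choose k + (c + 2 * k - 2).choose k ≤ N.choose (k + 1)

/-- SLF (uses BA1, SNM). Left region: `2k + c + 3p ≤ N + 2` (with `2 ≤ p`, `N < 2^p`) implies
`sumch k ≤ sumch (k+1)`.
Proof. Call `i ∈ F` bad if `s i ≤ k` and `N - a i ≤ 2 (k - s i)`.  For a good `i`,
`ch (N-a) k s ≤ ch (N-a) (k+1) s` (if `s > k` the left side is `0`; else BA1). `i0` is good
(`2k+1 ≤ N`). A bad `i` has `s i ≥ 1` (by `huniq`), `s i ≤ k`, and
`ch (N-a) k s = choose (N-a) (k-s) ≤ choose (2k-2) (k-s)` (`N - a ≤ 2(k-s) ≤ 2k-2`). Sum over bad `i`,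
grouped by `s i = j` (at most `choose c j` of them): `≤ ∑_j choose c j * choose (2k-2) (k-j) =
choose (c+2k-2) k` (Vandermonde, `Nat.add_choose_eq` over `Finset.antidiagonal k`).  So
`sumch k ≤ [∑_{good, ≠ i0} ch(k+1)] + choose N k + choose (c+2k-2) k ≤
[∑_{good, ≠ i0} ch (k+1)] + choose N (k+1) ≤ sumch (k+1)` by SNM. For `k = 0`: the only bad `i` would
have `1 ≤ s i ≤ 0`: none, so all terms increase. -/
def S_SLF : Prop :=
  ∀ (ι : Type) (F : Finset ι) (N c : ℕ) (a s : ι → ℕ) (i0 : ι), Fam F N c a s i0 →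
    ∀ k p : ℕ, 2 ≤ p → N < 2 ^ p → 2 * k + c + 3 * p ≤ N + 2 →
      sumch F N a s k ≤ sumch F N a s (k + 1)

/-- SBD (uses BA2, BA5). A bad term of the window: `A = 5c + 6p`, `N < 2^p`, `4 ≤ p`,
`(9c + 12p)^2 ≤ N`, window `N + 2 < 2k + c + 3p + 2 + 2` i.e. `N ≤ 2k + c + 3p + 1`, and
`2k ≤ N + 2c`.  Then for `a > A`, `a ≤ N`, `s ≤ c`, and `j = k - s + 1` or `j = k - s - 1`:
`2^c * 8 * (N+1) * choose (N-a) j ≤ choose N k` .
Proof: `choose (N-a) j ≤ choose (N-A) j`; `4j ≥ N` (as `j ≥ k - c - 1 ≥ (N - c - 3p - 1)/2 - c - 1`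
and `9c+12p ≤ N/(9c+12p) ≤ N/48`), so by BA2 `4^A choose (N-A) j ≤ 3^A choose N j`; by BA5
`choose N j ≤ 2^(c+1) choose N k` (`j ≤ k`: factor `2^(k-j)`, `k - j ≤ c+1`; `j = k+1`: factor 2);
finally `3^A * 2^(c+1) * 2^c * 8 * (N+1) ≤ 4^A`:  `(4/3)^5 ≥ 4` gives `(4/3)^(5c) ≥ 4^c = 2^c 2^c`,
and `(4/3)^(6p) ≥ 4^p = 2^p 2^p ≥ (N+1) * 2^p ≥ (N+1) * 16 = (N+1) * 8 * 2`. -/
def S_SBD : Prop :=
  ∀ N c k p a s j : ℕ, 4 ≤ p → N < 2 ^ p → (9 * c + 12 * p) ^ 2 ≤ N →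
    N ≤ 2 * k + c + 3 * p + 1 → 2 * k ≤ N + 2 * c → 5 * c + 6 * p < a → a ≤ N → s ≤ c →
    (j = k - s + 1 ∨ j = k - s - 1) →
    2 ^ c * 8 * (N + 1) * (N - a).choose j ≤ N.choose k

/-- SWI (uses BA3, BA4, SBD). Window: concave.  With `4 ≤ p`, `N < 2^p`, `(9c + 12p)^2 ≤ N`,
`N ≤ 2k + c + 3p + 1`, `2k ≤ N + 2c`: `sumch (k+1) + sumch (k-1) ≤ 2 sumch k`.
Proof. `k ≥ c + 2` (as `N ≥ 48 (9c+12p)`), so `ch M k' s = choose M (k'-s)` for `k' = k-1,k,k+1`,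
`s ≤ c`.  Let `A = 5c+6p`.  Good `i ≠ i0` (`a i ≤ A`): BA3 with `M = N - a`, `j = k - s`:
`|M - 2j| = |N - 2k - a + 2s| ≤ 3c + 3p + 1 + A` (`N - 2k ∈ [-2c, c+3p+1]`) and
`(8c + 9p + 1)^2 ≤ N - A + 2`. Bad `i` (`a i > A`): by SBD each of `choose (N-a) (k-s+1)`,
`choose (N-a) (k-s-1)` is `≤ choose N k / (2^c 8 (N+1))`, there are at most `2^c` indices in all
(sum of `hcount`, `∑ choose c j = 2^c`, `Nat.sum_range_choose`), so the bad terms contribute at most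
`choose N k / (4 (N+1))` to `sumch (k+1) + sumch (k-1)`; by BA4 (`2(N-2k)^2 ≤ 2 (2c+3p+1)^2 ≤ N`) the
`i0` term satisfies `choose N (k+1) + choose N (k-1) + choose N k / (2 (N+1)) ≤ 2 choose N k`. Multiply
everything by `8 (N+1)` to stay in ℕ. -/
def S_SWI : Prop :=
  ∀ (ι : Type) (F : Finset ι) (N c : ℕ) (a s : ι → ℕ) (i0 : ι), Fam F N c a s i0 →
    ∀ k p : ℕ, 4 ≤ p → N < 2 ^ p → (9 * c + 12 * p) ^ 2 ≤ N →
      N ≤ 2 * k + c + 3 * p + 1 → 2 * k ≤ N + 2 * c →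
      sumch F N a s (k + 1) + sumch F N a s (k - 1) ≤ 2 * sumch F N a s k

/-- CMB. A sequence that increases up to `L`, is concave on `[L, R]` and decreases from `R` on is
unimodal. (Proof: let `m` be the least `k ≥ L` with `f (k+1) ≤ f k`, it exists and is `≤ max L R`;
before `m` it increases; after `m`, by induction `f (k+1) ≤ f k`: in the window from
`f (k+1) + f (k-1) ≤ 2 f k` and `f k ≤ f (k-1)`.) -/
def S_CMB : Prop :=
  ∀ (f : ℕ → ℕ) (L R : ℕ), (∀ k, k < L → f k ≤ f (k + 1)) →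
    (∀ k, L ≤ k → k < R → 1 ≤ k → f (k + 1) + f (k - 1) ≤ 2 * f k) →
    (∀ k, R ≤ k → f (k + 1) ≤ f k) → UnimodalSeq f

/-- UNI (uses SRT, SLF, SWI, CMB). The abstract theorem. -/
def S_UNI : Prop :=
  ∀ (ι : Type) (F : Finset ι) (N c : ℕ) (a s : ι → ℕ) (i0 : ι), Fam F N c a s i0 →
    ∀ p : ℕ, 4 ≤ p → N < 2 ^ p → (9 * c + 12 * p) ^ 2 ≤ N → UnimodalSeq (sumch F N a s)

/-! ## Graph side -/

/-- DEC. Decomposition of the independence sequence by the trace on a vertex cover `C`.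
Take `ι = Finset V`, `F` = independent subsets of `C`, `s S = |S|`,
`a S = #{v ∉ C : ∃ u ∈ S, u ~ v}`, `N = |V| - |C|`, `i0 = ∅`.
Proof: an independent set `I` is `S ∪ J`, `S = I ∩ C`, `J ⊆ V \ C` avoiding the neighbours of `S`; every
such pair gives an independent set (`C` is a vertex cover). Independent `k`-sets with trace `S`
correspond to `(k - |S|)`-subsets of a set with `N - a S` elements (`Finset.card_powersetCard`). -/
def S_DEC : Prop :=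
  ∀ (V : Type) [Fintype V] (G : SimpleGraph V) (C : Finset V),
    (∀ u v, G.Adj u v → u ∈ C ∨ v ∈ C) →
    ∃ (F : Finset (Finset V)) (a s : Finset V → ℕ),
      Fam F (Fintype.card V - C.card) C.card a s ∅ ∧
      indepSeq G = sumch F (Fintype.card V - C.card) a s

/-- TRE. In a tree with at least three vertices the vertices of degree at least two form a vertex
cover: `u ~ v` both of degree one would make `{u, v}` a connected component. -/
def S_TRE : Prop :=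
  ∀ (V : Type) [Fintype V] [DecidableEq V] (G : SimpleGraph V) [DecidableRel G.Adj],
    G.IsTree → 3 ≤ Fintype.card V → ∀ u v, G.Adj u v → 2 ≤ G.degree u ∨ 2 ≤ G.degree v

/-- FIN (architect). -/
def S_FIN : Prop :=
  ∀ (V : Type) [Fintype V] (G : SimpleGraph V) (C : Finset V),
    (∀ u v, G.Adj u v → u ∈ C ∨ v ∈ C) →
    (10 * C.card + 12 * Nat.log 2 (Fintype.card V) + 12) ^ 2 ≤ Fintype.card V →
    UnimodalSeq (indepSeq G)

end H37.IS
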