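import Pool.Agent.H37.IS.Stm

/-! CREW IS, second batch (helper37): MP_24a1b5_co. Trees with a vertex cover `C` all of whose vertices
have at least `9 log₂ n + 10` neighbours outside `C` have unimodal independence sequences.
In `i_k = ∑_S choose (N - a_S) (k - |S|)` now `a_S ≥ 9 p |S|`, `N < 2^p`, so near the middle all terms
but `S = ∅` are negligible. -/

set_option autoImplicit false

namespace H37.IS

open N36365310

/-- hypotheses of the heavy case -/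
def Hvy {ι : Type} (F : Finset ι) (N c : ℕ) (a s : ι → ℕ) (p : ℕ) : Prop :=
  4 ≤ p ∧ N < 2 ^ p ∧ 1 ≤ c ∧ 9 * p * c ≤ N ∧ ∀ i ∈ F, 9 * p * s i ≤ a i

/-- HBD (uses BA2, BA5). All terms but the main one are negligible in the middle region.
Proof. Let `i ∈ F`, `i ≠ i0`; `s = s i ≥ 1` by `huniq`, `s ≤ c`. `k ≥ c ≥ s`, so
`ch (N - a) k s = choose (N-a) (k-s) ≤ choose (N - 9ps) (k-s)`. `N ≤ 4 (k-s)` because `4k ≥ 2N - 2c -
6p - 2` and `N ≥ 9pc ≥ 6c + 6p + 2` (`p ≥ 4`, `c ≥ 1`). BA2 (`t = 9ps ≤ a ≤ N`):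
`4^(9ps) choose (N-9ps) (k-s) ≤ 3^(9ps) choose N (k-s) ≤ 3^(9ps) 2^s choose N k` by BA5
(`3k ≤ 2N+2` because `2k ≤ N+2c+2`, `N ≥ 36 c`). There are at most `choose c s ≤ (2^p)^s` indices with
shift `s`, and `(2^p)^s * 2^s * 2^s * (2 (N+1)) * 3^(9ps) ≤ 4^(9ps)` because
`2^p * 4 * 2 (N+1) ≤ 8 * 4^p ≤ 13^p` and `13 * 3^9 ≤ 4^9`. So
`2(N+1) * ∑_{s i = s} ≤ choose N k / 2^s` and `∑_{s ≥ 1} 2^(-s) ≤ 1` (multiply by `2^c` to stay in ℕ). -/
def S_HBD : Prop :=
  ∀ (ι : Type) [DecidableEq ι] (F : Finset ι) (N c : ℕ) (a s : ι → ℕ) (i0 : ι), Fam F N c a s i0 →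
    ∀ k p : ℕ, Hvy F N c a s p → N ≤ 2 * k + c + 3 * p + 1 → 2 * k ≤ N + 2 * c + 2 →
      2 * (N + 1) * ∑ i ∈ F.erase i0, ch (N - a i) k (s i) ≤ N.choose k

/-- HIN (uses SLF, HBD). Increasing for `2k+2 ≤ N`.  If `2k + c + 3p ≤ N + 2`: SLF. Otherwise HBD applies
to `k`: `sumch k = choose N k + B`, `2(N+1) B ≤ choose N k`, and `(k+1) choose N (k+1) =
(N-k) choose N k ≥ (k+2) choose N k`, so `choose N (k+1) ≥ choose N k + B`
(`B ≤ choose N k / (2(N+1)) ≤ choose N k / (k+1)`). -/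
def S_HIN : Prop :=
  ∀ (ι : Type) [DecidableEq ι] (F : Finset ι) (N c : ℕ) (a s : ι → ℕ) (i0 : ι), Fam F N c a s i0 →
    ∀ k p : ℕ, Hvy F N c a s p → 2 * k + 2 ≤ N → sumch F N a s k ≤ sumch F N a s (k + 1)

/-- HDE (uses SRT, HBD). Decreasing for `N ≤ 2k`.  If `N + 2c ≤ 2k+1`: SRT. Otherwise HBD applies
to `k+1`: `sumch (k+1) = choose N (k+1) + B`, `2(N+1) B ≤ choose N (k+1)`, and `(k+1) choose N (k+1) =
(N-k) choose N k ≤ k choose N k`, so `choose N k ≥ choose N (k+1) (1 + 1/k)`, `k ≤ 2(N+1)`, `k ≥ 1`. -/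
def S_HDE : Prop :=
  ∀ (ι : Type) [DecidableEq ι] (F : Finset ι) (N c : ℕ) (a s : ι → ℕ) (i0 : ι), Fam F N c a s i0 →
    ∀ k p : ℕ, Hvy F N c a s p → N ≤ 2 * k → sumch F N a s (k + 1) ≤ sumch F N a s k

/-- HCM. Combination: the only index not covered is `k = (N-1)/2` for odd `N`, a single index. -/
def S_HCM : Prop :=
  ∀ (f : ℕ → ℕ) (N : ℕ), (∀ k, 2 * k + 2 ≤ N → f k ≤ f (k + 1)) →
    (∀ k, N ≤ 2 * k → f (k + 1) ≤ f k) → UnimodalSeq f

/-- FOR. In a tree, if every `v ∈ S` has at least `D + 1` neighbours in `W`, then `S` has at least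
`D |S|` neighbours in `W`.  Proof: root the tree at `x`; every vertex has at most one neighbour which is
closer to `x` (its parent), so each `v ∈ S` has at least `D` children in `W` (neighbours `w` with
`dist x w = dist x v + 1`); a vertex has at most one parent, so the sets of children of different
`v ∈ S` are disjoint. -/
def S_FOR : Prop :=
  ∀ (V : Type) [Fintype V] (G : SimpleGraph V) [DecidableRel G.Adj], G.IsTree →
    ∀ (D : ℕ) (S W : Finset V), (∀ v ∈ S, D + 1 ≤ (W.filter (fun w => G.Adj v w)).card) →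
      D * S.card ≤ (W.filter (fun w => ∃ u ∈ S, G.Adj u w)).card

/-- DE2. The decomposition DEC with explicit `a`, `s` (the proof of `DEC_proved` in
`Pool/Agent/H89/IS/DEC.lean` gives this). -/
def S_DE2 : Prop :=
  ∀ (V : Type) [Fintype V] [DecidableEq V] (G : SimpleGraph V) [DecidableRel G.Adj] (C : Finset V),
    (∀ u v, G.Adj u v → u ∈ C ∨ v ∈ C) →
    ∃ (F : Finset (Finset V)) (a s : Finset V → ℕ),
      Fam F (Fintype.card V - C.card) C.card a s ∅ ∧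
      indepSeq G = sumch F (Fintype.card V - C.card) a s ∧
      ∀ S ∈ F, s S = S.card ∧ S ⊆ C ∧
        a S = ((Finset.univ \ C).filter (fun v => ∃ u ∈ S, G.Adj u v)).card

/-- HFI (architect). -/
def S_HFI : Prop :=
  ∀ (V : Type) [Fintype V] (G : SimpleGraph V) (C : Finset V), G.IsTree → 2 ≤ Fintype.card V →
    (∀ u v, G.Adj u v → u ∈ C ∨ v ∈ C) →
    (∀ v ∈ C, 9 * Nat.log 2 (Fintype.card V) + 10 ≤ {w : V | G.Adj v w ∧ w ∉ C}.ncard) →
    UnimodalSeq (indepSeq G)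

end H37.IS
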