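import Pool.Agent.H37.IS.Stm2

/-! CREW IS, third batch (helper37): MP_24a1b5_co. Graphs `G` obtained from a graph `J` on `H` by
attaching `d v ≥ K ≥ 100` leaves to every vertex `v`, where `J` has maximum degree at most `2^(K/2)`:
the independence sequence is unimodal.  `i_k = F k = ∑_{A indep in J} choose (N - dS A) (k - |A|)`.
In the middle window the weights `choose (N - dS A) (k - |A|)` form a Gibbs measure satisfying Dobrushin's
condition, so the ratio `rho k A = choose M (j+1) / choose M j` has variance `≤ 1/(50 N)`, and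
`F (k+1) ≤ F k → F (k+2) ≤ F (k+1)`. -/

set_option autoImplicit false

namespace H37.IS

open N36365310

/-! ## Dobrushin part (abstract) -/

/-- Down-closed family `Om`, positive weights `w`, heat-bath probabilities `q v A` (probability that `v`
is present given that the rest is `A`), weights `c`, influence at most `1/2`. -/
structure Dob {H : Type} [Fintype H] [DecidableEq H] (Om : Finset (Finset H))
    (w : Finset H → ℝ) (q : H → Finset H → ℝ) (c : H → ℝ) : Prop where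
  down : ∀ A ∈ Om, ∀ B : Finset H, B ⊆ A → B ∈ Om
  ne : ∅ ∈ Om
  wpos : ∀ A ∈ Om, 0 < w A
  cpos : ∀ v, 0 < c v
  q01 : ∀ v A, 0 ≤ q v A ∧ q v A ≤ 1
  qz : ∀ v A, v ∉ A → A ∈ Om → insert v A ∉ Om → q v A = 0
  bal : ∀ v A, v ∉ A → insert v A ∈ Om → w (insert v A) * (1 - q v A) = w A * q v A
  infl : ∀ u S, u ∉ S → insert u S ∈ Om →
    ∑ v ∈ Finset.univ.erase u, |q v (S.erase v) - q v ((insert u S).erase v)| * c v ≤ c u / 2

/-- one heat-bath step (uniform random vertex) -/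
noncomputable def Pst {H : Type} [Fintype H] [DecidableEq H] (q : H → Finset H → ℝ)
    (g : Finset H → ℝ) (S : Finset H) : ℝ :=
  (∑ v : H, (q v (S.erase v) * g (insert v S) + (1 - q v (S.erase v)) * g (S.erase v))) /
    Fintype.card H

/-- `g` is `b`-Lipschitz on `Om` with respect to the weights `c`. -/
def Lp {H : Type} [Fintype H] [DecidableEq H] (Om : Finset (Finset H)) (c : H → ℝ)
    (g : Finset H → ℝ) (b : ℝ) : Prop :=
  ∀ A v, v ∉ A → insert v A ∈ Om → |g (insert v A) - g A| ≤ b * c v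

/-- DBA. Contraction.  Let `n = card H`. For `S`, `S' = insert u S` in `Om`, `u ∉ S`: the term `v = u`
is the same for both. For `v ≠ u` put `A = S.erase v`, `A' = insert u A`, `p = q v A`, `p' = q v A'`. If
`p' ≤ p`: the difference is `p' (g(A+v) - g(A'+v)) + (1-p)(g A - g A') + (p - p')(g(A+v) - g A')`, of
absolute value `≤ p' b c_u + (1-p) b c_u + (p-p') (b c_v + b c_u) = b c_u + b (p - p') c_v` (if `p' > 0`
then `A'+v ∈ Om` by `qz`, if `p > 0` then `A+v ∈ Om`; `Om` is down-closed). Same if `p ≤ p'`. Sum: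
`n |Pg S - Pg S'| ≤ (n-1) b c_u + b c_u / 2`. -/
def S_DBA : Prop :=
  ∀ (H : Type) [Fintype H] [DecidableEq H] [Nonempty H] (Om : Finset (Finset H))
    (w : Finset H → ℝ) (q : H → Finset H → ℝ) (c : H → ℝ), Dob Om w q c →
    ∀ (g : Finset H → ℝ) (b : ℝ), 0 ≤ b → Lp Om c g b →
      Lp Om c (Pst q g) (b * (1 - 1 / (2 * (Fintype.card H : ℝ))))

/-- DBB. Reversibility. `∑ w Pg = ∑ w g`, and for `f` `b`-Lipschitz, `g` `L`-Lipschitz and
`q v A ≤ Q v` on `Om`: `∑ w f g - ∑ w f (P g) ≤ (b L / n) (∑ c_v^2 Q_v) (∑ w)`.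
Proof: for each `v` pair `A ∌ v` with `insert v A` (both in `Om`; if `insert v A ∉ Om` then `q v A = 0` and
the term is zero): with `p = q v A`, `w(A+v)(1-p) = w(A) p`,
`w(A) f(A) [g A - (p g(A+v) + (1-p) g A)] + w(A+v) f(A+v) [g(A+v) - p g(A+v) - (1-p) g A]
= w(A) p (g A - g(A+v)) f A + w(A+v)(1-p) (g(A+v) - g A) f(A+v) = w(A) p (f(A+v)-f A)(g(A+v)-g A)`. -/
def S_DBB : Prop :=
  ∀ (H : Type) [Fintype H] [DecidableEq H] [Nonempty H] (Om : Finset (Finset H))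
    (w : Finset H → ℝ) (q : H → Finset H → ℝ) (c : H → ℝ), Dob Om w q c →
    (∀ g : Finset H → ℝ, ∑ A ∈ Om, w A * Pst q g A = ∑ A ∈ Om, w A * g A) ∧
    ∀ (f g : Finset H → ℝ) (b L : ℝ) (Q : H → ℝ), 0 ≤ b → 0 ≤ L → Lp Om c f b → Lp Om c g L →
      (∀ v A, v ∉ A → insert v A ∈ Om → q v A ≤ Q v) → (∀ v, 0 ≤ Q v) →
      ∑ A ∈ Om, w A * (f A * g A) - ∑ A ∈ Om, w A * (f A * Pst q g A) ≤
        b * L / (Fintype.card H : ℝ) * (∑ v, c v ^ 2 * Q v) * ∑ A ∈ Om, w A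

/-- DBC (uses DBA, DBB). Variance bound.
Proof: `g_t = P^t f` is `b r^t`-Lipschitz, `r = 1 - 1/(2n)`; telescoping DBB over `t < T`:
`∑ w f^2 - ∑ w f g_T ≤ (b^2/n) ∑_t r^t Σ W ≤ 2 b^2 Σ W`, `Σ = ∑ c_v^2 Q_v`. As `T → ∞`,
`g_T A - g_T ∅ → 0` for `A ∈ Om` (Lipschitz, down-closed) and `∑ w g_T = ∑ w f`, so
`∑ w f g_T → (∑ w f)^2 / W`. -/
def S_DOB : Prop :=
  ∀ (H : Type) [Fintype H] [DecidableEq H] [Nonempty H] (Om : Finset (Finset H))
    (w : Finset H → ℝ) (q : H → Finset H → ℝ) (c : H → ℝ), Dob Om w q c →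
    ∀ (f : Finset H → ℝ) (b : ℝ) (Q : H → ℝ), 0 ≤ b → Lp Om c f b →
      (∀ v A, v ∉ A → insert v A ∈ Om → q v A ≤ Q v) → (∀ v, 0 ≤ Q v) →
      (∑ A ∈ Om, w A) * (∑ A ∈ Om, w A * f A ^ 2) - (∑ A ∈ Om, w A * f A) ^ 2 ≤
        2 * b ^ 2 * (∑ v, c v ^ 2 * Q v) * (∑ A ∈ Om, w A) ^ 2

/-! ## Binomial estimates -/

/-- NB1. `choose (M-d) (j-1) 5^(d-1) ≤ 3^(d-1) choose M j` for `1 ≤ d ≤ M`, `j ≤ M`, `2M+3 ≤ 5j`.
(`choose (M-1) (j-1) ≤ choose M j`, then each step `5 choose (m-1) (j-1) ≤ 3 choose m (j-1)` for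
`m ≤ M - 1`: `m choose (m-1) (j-1) = (m-j+1) choose m (j-1)`, `5(m-j+1) ≤ 3m` as `2m + 5 ≤ 5j`.) -/
def S_NB1 : Prop :=
  ∀ M j d : ℕ, 1 ≤ d → d ≤ M → j ≤ M → 2 * M + 3 ≤ 5 * j →
    (M - d).choose (j - 1) * 5 ^ (d - 1) ≤ 3 ^ (d - 1) * M.choose j

/-- NB2. Influence of a change `(M, j) → (M - e, j - 1)` on `R = choose (M-d) (j-1) / choose M j`.
Here `M ≤ N`, `19 N ≤ 40 j` (`j ≥ 0.475 N`), `N ≥ 1000`, `e + d ≤ M`, `j - 1 ≤ M - e`, `d, e ≥ 1`.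
Proof: `R ≤ (3/5)^(d-1)` and `R' ≤ (3/5)^(d-1)` by NB1. If `10 d ≥ N` this suffices. If `10 d < N`:
`R = (j/M) ∏_{i=1}^{d-1} y_i`, `y_i = (M-j-i+1)_+ / (M-i) ≤ 3/5`, likewise `R'` with
`y_i' = (M-e-j+2-i)_+ / (M-e-i)`; `|y_i - y_i'| ≤ (e+1)/(M-e-i) ≤ 3(e+1)/N`, `|j/M - (j-1)/(M-e)| ≤
(e+1)/(M-e)`; so `|R - R'| ≤ d * 3 (e+1)/N * (3/5)^(d-2)`. -/
def S_NB2 : Prop :=
  ∀ N M j d e : ℕ, M ≤ N → 19 * N ≤ 40 * j → 1000 ≤ N → e + d ≤ M → j - 1 ≤ M - e → j ≤ M →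
    2 ≤ d → 1 ≤ e →
    |((M - e - d).choose (j - 2) : ℝ) / ((M - e).choose (j - 1) : ℝ) -
      ((M - d).choose (j - 1) : ℝ) / (M.choose j : ℝ)| ≤
      10 * d * (e + 1) * (3 / 5 : ℝ) ^ (d - 2) / N

/-! ## The measure of the problem -/

def dS {H : Type} (d : H → ℕ) (A : Finset H) : ℕ := ∑ v ∈ A, d v

/-- `F k` -/
noncomputable def FF {H : Type} [Fintype H] [DecidableEq H] (J : SimpleGraph H) (d : H → ℕ)
    (N k : ℕ) : ℕ :=
  open Classical in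
  sumch (Finset.univ.filter (fun A : Finset H => J.IsIndepSet (A : Set H))) N (dS d) Finset.card k

noncomputable def Om {H : Type} [Fintype H] [DecidableEq H] (J : SimpleGraph H) (d : H → ℕ)
    (N k : ℕ) : Finset (Finset H) :=
  open Classical in
  Finset.univ.filter (fun A : Finset H => J.IsIndepSet (A : Set H) ∧ k - A.card ≤ N - dS d A)

noncomputable def wt {H : Type} (d : H → ℕ) (N k : ℕ) (A : Finset H) : ℝ :=
  ((N - dS d A).choose (k - A.card) : ℝ)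

noncomputable def pr {H : Type} [Fintype H] [DecidableEq H] (J : SimpleGraph H) (d : H → ℕ)
    (N k : ℕ) (v : H) (A : Finset H) : ℝ :=
  open Classical in
  if J.IsIndepSet ((insert v A : Finset H) : Set H) then
    ((N - dS d A - d v).choose (k - A.card - 1) : ℝ) /
      (((N - dS d A).choose (k - A.card) : ℝ) + ((N - dS d A - d v).choose (k - A.card - 1) : ℝ))
  else 0

/-- `rho A = (M - j)/(j + 1)`, `M = N - dS A`, `j = k - |A|`. -/
noncomputable def rho {H : Type} (d : H → ℕ) (N k : ℕ) (A : Finset H) : ℝ :=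
  ((N : ℝ) - dS d A - k + A.card) / ((k : ℝ) - A.card + 1)

/-- the middle window -/
structure Win {H : Type} [Fintype H] [DecidableEq H] (J : SimpleGraph H) (d : H → ℕ)
    (N K k : ℕ) : Prop where
  hN : N = ∑ v, d v
  hK : 100 ≤ K
  hd : ∀ v, K ≤ d v
  hdeg : ∀ v, {u | J.Adj v u}.ncard ≤ 2 ^ (K / 2) * d v
  hN0 : 2000 ≤ N
  hlo : 97 * N ≤ 200 * k
  hhi : 100 * k ≤ 51 * N

/-- DOH (uses NB1, NB2). In the window the data form a Dobrushin system with `c v = d v + 1`, and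
`pr v A ≤ (3/5)^(d v - 1)`.
Proof: `K |H| ≤ N` so `|H| ≤ N/100`, `j = k - |A| ≥ 0.475 N` for every `A`. `down`: removing `v` from `A`
raises `M` by `d v ≥ 1` and `j` by 1. `bal`: `w(A+v) = choose (M - d v) (j-1)`. `pr ≤ R = choose (M-d)
(j-1) / choose M j ≤ (3/5)^(d-1)` by NB1. `infl`: for `v` adjacent to `u` the second value is `0` and the
first `≤ (3/5)^(d_v-1)`; there are at most `2^(K/2) d_u` of them and `(d+1) (3/5)^(d-1) 2^(K/2) ≤
1/4`, as `d ≥ K ≥ 100`. For `v` not adjacent to `u`, `v ≠ u`, with `A = S.erase v`: both are `0` or (since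
`x/(1+x)` is 1-Lipschitz) the difference is at most `|R' - R| ≤ 10 d_v (d_u+1) (3/5)^(d_v-2) / N` by NB2
(`e = d_u`); times `c_v` and summed over `v`: `≤ c_u (10/N) ∑ d_v (d_v+1) (3/5)^(d_v-2) ≤ c_u/4` because
`40 (d+1) (3/5)^(d-2) ≤ 1` for `d ≥ 100` and `∑ d_v = N`. -/
def S_DOH : Prop :=
  ∀ (H : Type) [Fintype H] [DecidableEq H] [Nonempty H] (J : SimpleGraph H) (d : H → ℕ) (N K k : ℕ),
    Win J d N K k →
    Dob (Om J d N k) (wt d N k) (pr J d N k) (fun v => (d v : ℝ) + 1) ∧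
    ∀ v A, v ∉ A → insert v A ∈ Om J d N k → pr J d N k v A ≤ (3 / 5 : ℝ) ^ (d v - 1) 

/-- RHL. `rho` is `3/N`-Lipschitz with respect to `c v = d v + 1`.
Proof: `rho (A+v) - rho A = (M-d-j+1)/j - (M-j)/(j+1) = (M-j)/(j(j+1)) - (d-1)/j`, both terms are in
`[0, (d+1)/j]` (`0 ≤ M - j ≤ 2 (j+1)`), and `j ≥ 0.45 N`. -/
def S_RHL : Prop :=
  ∀ (H : Type) [Fintype H] [DecidableEq H] [Nonempty H] (J : SimpleGraph H) (d : H → ℕ) (N K k : ℕ),
    Win J d N K k → Lp (Om J d N k) (fun v => (d v : ℝ) + 1) (rho d N k) (3 / N)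

/-- SUM. The three sums. `F k = ∑ w`, `F (k+1) = ∑ w rho`, `F (k+2) ≤ (1 - 3/N) ∑ w rho^2`.
Proof: `|A| ≤ |H| ≤ k`; for independent `A ∉ Om`, `M < j` and all three binomials vanish. On `Om`,
`choose M (j+1) = choose M j * rho`, `choose M (j+2) = choose M (j+1) (M-j-1)/(j+2)`, and
`(M-j-1)/(j+2) ≤ rho (1 - 3/N)` (`M - j ≤ 0.53 N`, `j + 2 ≤ 0.53 N`; if `M = j` then `rho = 0`). -/
def S_SUM : Prop :=
  ∀ (H : Type) [Fintype H] [DecidableEq H] [Nonempty H] (J : SimpleGraph H) (d : H → ℕ) (N K k : ℕ),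
    Win J d N K k →
    (FF J d N k : ℝ) = ∑ A ∈ Om J d N k, wt d N k A ∧
    (FF J d N (k + 1) : ℝ) = ∑ A ∈ Om J d N k, wt d N k A * rho d N k A ∧
    (FF J d N (k + 2) : ℝ) ≤ (1 - 3 / N) * ∑ A ∈ Om J d N k, wt d N k A * rho d N k A ^ 2

/-- RLO. The ratio is not small: `F (k+1) ≥ F k / 2`.
Proof: `∑_{A ∋ v} w A ≤ (3/5)^(d v - 1) ∑_A w A` (NB1), so `∑_A w A dS A ≤ ∑_v d_v (3/5)^(d_v-1) W ≤
(N/1000) W`; `rho A ≥ (N - k - dS A)/(k+1)`, so `∑ w rho ≥ (N - k - N/1000)/(k+1) W ≥ W/2`. -/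
def S_RLO : Prop :=
  ∀ (H : Type) [Fintype H] [DecidableEq H] [Nonempty H] (J : SimpleGraph H) (d : H → ℕ) (N K k : ℕ),
    Win J d N K k →
    (∑ A ∈ Om J d N k, wt d N k A) / 2 ≤ ∑ A ∈ Om J d N k, wt d N k A * rho d N k A

/-- STP (uses DOB, DOH, RHL, SUM, RLO).
Proof: `W = F k`, `r = F(k+1)/W ∈ [1/2, 1]`. Variance: `(1/W) ∑ w rho^2 - r^2 ≤ 2 (9/N^2)
∑ (d_v+1)^2 (3/5)^(d_v-1) ≤ 1/(50 N)` because `(d+1)^2 (3/5)^(d-1) ≤ d/1000` for `d ≥ 100`. So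
`F(k+2)/W ≤ (1-3/N)(r^2 + 1/(50N)) ≤ (1-3/N)(r + 1/(50 N)) ≤ r = F(k+1)/W` as `3r/N ≥ 1/(50N)`. -/
def S_STP : Prop :=
  ∀ (H : Type) [Fintype H] [DecidableEq H] [Nonempty H] (J : SimpleGraph H) (d : H → ℕ) (N K k : ℕ),
    Win J d N K k → FF J d N (k + 1) ≤ FF J d N k → FF J d N (k + 2) ≤ FF J d N (k + 1)

/-- CM3. Combination. -/
def S_CM3 : Prop :=
  ∀ (f : ℕ → ℕ) (L R : ℕ), (∀ k, k < L → f k ≤ f (k + 1)) →
    (∀ k, L ≤ k → k < R → f (k + 1) ≤ f k → f (k + 2) ≤ f (k + 1)) →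
    (∀ k, R ≤ k → f (k + 1) ≤ f k) → UnimodalSeq f

/-- GRA. Graph side: `C` a vertex cover, every vertex outside `C` has exactly one neighbour. Then with
`H = C`, `J` the induced graph, `d v` the number of neighbours outside `C`, `N = |V| - |C|`:
`indepSeq G = FF` and `∑ d v = N`.  (Use DE2, or repeat its proof: `a S = ∑_{u ∈ S} d u`; transfer
`Finset V` subsets of `C` to `Finset C` by `Finset.subtype`/`Finset.map`.) -/
def S_GRA : Prop :=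
  ∀ (V : Type) [Fintype V] [DecidableEq V] (G : SimpleGraph V) (C : Finset V),
    (∀ u v, G.Adj u v → u ∈ C ∨ v ∈ C) → (∀ w, w ∉ C → ∃! v, G.Adj w v) →
    (∑ v : {v // v ∈ C}, {w : V | G.Adj v w ∧ w ∉ C}.ncard) = Fintype.card V - C.card ∧
    ∀ k, indepSeq G k = FF (SimpleGraph.comap (fun v : {v // v ∈ C} => (v : V)) G)
      (fun v => {w : V | G.Adj v w ∧ w ∉ C}.ncard) (Fintype.card V - C.card) k

/-- FMH. The family is admissible. -/
def S_FMH : Prop :=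
  ∀ (H : Type) [Fintype H] [DecidableEq H] (J : SimpleGraph H) (d : H → ℕ) (F : Finset (Finset H)),
    (∀ A, A ∈ F ↔ J.IsIndepSet (A : Set H)) →
    Fam F (∑ v, d v) (Fintype.card H) (dS d) Finset.card ∅

end H37.IS
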