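import Pool.Agent.H37.IS.Stm

set_option autoImplicit false

namespace H37.IS

open N36365310

theorem UNI_proved (h1 : S_SRT) (h2 : S_SLF) (h3 : S_SWI) (h4 : S_CMB) : S_UNI := by
  intro ι F N c a s i0 hF p hp hN hc
  have hle : 9 * c + 12 * p ≤ N := by
    have h : 9 * c + 12 * p ≤ (9 * c + 12 * p) ^ 2 := Nat.le_self_pow (by norm_num) _
    omega
  refine h4 (sumch F N a s) ((N + 2 - (c + 3 * p)) / 2 + 1) ((N + 2 * c) / 2) ?_ ?_ ?_
  · intro k hk
    refine h2 ι F N c a s i0 hF k p (by omega) hN ?_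
    omega
  · intro k hk1 hk2 hk3
    refine h3 ι F N c a s i0 hF k p hp hN hc ?_ ?_
    · omega
    · omega
  · intro k hk
    refine h1 ι F N c a s i0 hF k ?_
    omega

theorem FIN_proved (hU : S_UNI) (hD : S_DEC) : S_FIN := by
  intro V _ G C hC hcard
  obtain ⟨F, a, s, hF, hseq⟩ := hD V G C hC
  rw [hseq]
  have hC' : C.card ≤ Fintype.card V := Finset.card_le_univ C
  set n := Fintype.card V with hn
  set c := C.card with hc
  set L := Nat.log 2 n with hL
  have hn144 : 144 ≤ n := by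
    have : 12 ^ 2 ≤ (10 * c + 12 * L + 12) ^ 2 := Nat.pow_le_pow_left (by omega) 2
    omega
  have hlog : n < 2 ^ (L + 1) := Nat.lt_pow_succ_log_self (by norm_num) n
  have hL7 : 7 ≤ L := by
    rw [hL]
    exact Nat.le_log_of_pow_le (by norm_num) (by omega)
  refine hU (Finset V) F (n - c) c a s ∅ hF (L + 1) (by omega) (by omega) ?_
  have h1 : (9 * c + 12 * (L + 1)) ^ 2 + c ≤ (10 * c + 12 * L + 12) ^ 2 := by
    nlinarith
  omega

end H37.IS
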